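import Mathlib

/-!
# The amenability constant of the central Fourier algebra and normal Hall subgroups

For a finite group `G`, `ZA G` is the space of complex class functions, with the norm
`normA f = ∑ χ(1) |c_χ|` for `f = ∑ c_χ χ` (the sum over the irreducible characters of `G`), and
`AMZA G` is the norm of `∑_C 1_C ⊗ 1_C` in the projective tensor product.

We show `AMZA (G ⧸ N) ≤ AMZA G` for every normal Hall subgroup `N` of `G`. By the Schur-Zassenhaus
theorem `G → G ⧸ N` has a section `s : G ⧸ N → G` which is a homomorphism. Composition with `s` is a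
contraction `ZA G → ZA (G ⧸ N)` which maps the diagonal `∑_C 1_C ⊗ 1_C` to the diagonal.
-/

set_option autoImplicit false

open scoped TensorProduct

universe u

namespace Pool.Agent.Results.MP_222fdd_al.HallQuotient

/-- The irreducible complex characters of `G`. -/
def Irr (G : Type u) [Group G] : Set (G → ℂ) :=
  {χ | ∃ (V : Type u) (_ : AddCommGroup V) (_ : Module ℂ V) (_ : FiniteDimensional ℂ V)
    (ρ : Representation ℂ G V), ρ.IsIrreducible ∧ χ = ρ.character}

/-- The coefficient `c_χ` of a class function `f = ∑ c_χ χ`, which is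
`(1 / |G|) ∑_g f(g) χ(g⁻¹)` (see `eq_sum_coeff`). -/
noncomputable def coeff {G : Type u} [Group G] (f χ : G → ℂ) : ℂ :=
  (Nat.card G : ℂ)⁻¹ * ∑ᶠ g, f g * χ g⁻¹

/-- The space of complex class functions on `G`. -/
def ZA (G : Type u) [Group G] : Submodule ℂ (G → ℂ) where
  carrier := {f | ∀ g h, f (h * g * h⁻¹) = f g}
  add_mem' := fun hf hf' g h => by
    simp only [Pi.add_apply]
    rw [hf g h, hf' g h]
  zero_mem' := fun _ _ => rfl
  smul_mem' := fun c f hf g h => by
    simp only [Pi.smul_apply]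
    rw [hf g h]

/-- The norm `∑_χ χ(1) |c_χ|` of the class function `f = ∑_χ c_χ χ`. -/
noncomputable def normA {G : Type u} [Group G] (f : G → ℂ) : ℝ :=
  ∑ᶠ χ : Irr G, ‖χ.1 1‖ * ‖coeff f χ.1‖

/-- The norm on `ZA G ⊗ ZA G` of the projective tensor product: the infimum of the numbers
`∑ ‖a_i‖ ‖b_i‖` over all ways to write `t = ∑ a_i ⊗ b_i`. -/
noncomputable def projNorm {G : Type u} [Group G] (t : ZA G ⊗[ℂ] ZA G) : ℝ :=
  sInf {r | ∃ (n : ℕ) (a b : Fin n → ZA G), t = ∑ i, a i ⊗ₜ[ℂ] b i ∧
    r = ∑ i, normA (a i).1 * normA (b i).1}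

open scoped Classical in
/-- The indicator function `1_C` of the conjugacy class `C`. -/
noncomputable def ind {G : Type u} [Group G] (C : ConjClasses G) : ZA G :=
  ⟨fun g => if ConjClasses.mk g = C then 1 else 0, fun g h => by
    have : ConjClasses.mk (h * g * h⁻¹) = ConjClasses.mk g :=
      ConjClasses.mk_eq_mk_iff_isConj.2 (isConj_iff.2 ⟨h⁻¹, by group⟩)
    simp only [this]⟩

/-- The amenability constant of the central Fourier algebra of `G`:
the norm of `∑_C 1_C ⊗ 1_C` in the projective tensor product `ZA G ⊗ ZA G`. -/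
noncomputable def AMZA (G : Type u) [Group G] : ℝ :=
  projNorm (∑ᶠ C : ConjClasses G, ind C ⊗ₜ[ℂ] ind C)

section completeness

variable {G : Type u} [Group G] [Finite G]

theorem card_ne : (Nat.card G : ℂ) ≠ 0 := by
  exact_mod_cast Nat.card_pos.ne'

omit [Finite G] in
theorem coeff_eq [Fintype G] (f χ : G → ℂ) :
    coeff f χ = (Nat.card G : ℂ)⁻¹ * ∑ g, f g * χ g⁻¹ := by
  rw [coeff, finsum_eq_sum_of_fintype]

omit [Finite G] in
theorem Irr.mem_ZA {χ : G → ℂ} (hχ : χ ∈ Irr G) : χ ∈ ZA G := by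
  obtain ⟨V, _, _, _, ρ, -, rfl⟩ := hχ
  exact fun g h => ρ.char_conj g h

theorem coeff_self {χ : G → ℂ} (hχ : χ ∈ Irr G) : coeff χ χ = 1 := by
  have := Fintype.ofFinite G
  obtain ⟨V, _, _, _, ρ, hρ, rfl⟩ := hχ
  have : Invertible (Nat.card G : ℂ) := invertibleOfNonzero card_ne
  have h := Representation.char_orthonormal ρ ρ
  rw [if_pos ⟨Representation.Equiv.refl ρ⟩] at h
  rw [coeff_eq, h]

theorem coeff_ne {χ χ' : G → ℂ} (hχ : χ ∈ Irr G) (hχ' : χ' ∈ Irr G) (hne : χ ≠ χ') :
    coeff χ χ' = 0 := by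
  have := Fintype.ofFinite G
  obtain ⟨V, _, _, _, ρ, hρ, rfl⟩ := hχ
  obtain ⟨V', _, _, _, σ, hσ, rfl⟩ := hχ'
  have : Invertible (Nat.card G : ℂ) := invertibleOfNonzero card_ne
  have h := Representation.char_orthonormal ρ σ
  rw [if_neg] at h
  · rw [coeff_eq, h]
  · rintro ⟨e⟩
    exact hne (Representation.char_iso e).symm

theorem coeff_sum {ι : Type*} (s : Finset ι) (c : ι → ℂ) (F : ι → G → ℂ) (χ : G → ℂ) :
    coeff (∑ i ∈ s, c i • F i) χ = ∑ i ∈ s, c i * coeff (F i) χ := by
  have := Fintype.ofFinite G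
  simp only [coeff_eq, Finset.sum_apply, Pi.smul_apply, smul_eq_mul, Finset.sum_mul,
    Finset.mul_sum]
  rw [Finset.sum_comm]
  refine Finset.sum_congr rfl fun i _ => Finset.sum_congr rfl fun g _ => by ring

instance irr_finite : Finite (Irr G) := by
  classical
  have hli : LinearIndependent ℂ (fun χ : Irr G => (χ : G → ℂ)) := by
    rw [linearIndependent_iff']
    intro s c hc i hi
    have h1 := coeff_sum s c (fun χ : Irr G => (χ : G → ℂ)) (i : G → ℂ)
    rw [hc, Finset.sum_eq_single i, coeff_self i.2, mul_one] at h1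
    · rw [← h1]
      simp [coeff]
    · intro j _ hj
      rw [coeff_ne j.2 i.2 (fun h => hj (Subtype.ext h)), mul_zero]
    · intro h; exact absurd hi h
  exact hli.finite

/-- For a class function `f` the operator `∑_g f(g) ρ(g⁻¹)` of an irreducible representation is
zero if the coefficient of `f` is. -/
theorem sum_smul_eq_zero {f : G → ℂ} (hf : f ∈ ZA G) [Fintype G] {V : Type*} [AddCommGroup V]
    [Module ℂ V] [FiniteDimensional ℂ V] (ρ : Representation ℂ G V) [ρ.IsIrreducible]
    (h : coeff f ρ.character = 0) : ∑ g, f g • ρ g⁻¹ = 0 := by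
  have hsum : ∑ g, f g * ρ.character g⁻¹ = 0 := by
    rw [coeff_eq] at h
    exact (mul_eq_zero.1 h).resolve_left (inv_ne_zero card_ne)
  have hcomm : ∀ x : G, (∑ g, f g • ρ g⁻¹) * ρ x = ρ x * (∑ g, f g • ρ g⁻¹) := by
    intro x
    rw [Finset.sum_mul, Finset.mul_sum]
    refine Fintype.sum_equiv (MulAut.conj x⁻¹).toEquiv _ _ fun g => ?_
    have h1 : f ((MulAut.conj x⁻¹).toEquiv g) = f g := hf g x⁻¹
    rw [h1, smul_mul_assoc, mul_smul_comm, ← map_mul, ← map_mul]
    congr 2
    simp [mul_assoc]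
  let T : Representation.IntertwiningMap ρ ρ :=
    ⟨∑ g, f g • ρ g⁻¹, fun x => by
      exact hcomm x⟩
  obtain ⟨c, hc⟩ :=
    Representation.IsIrreducible.algebraMap_intertwiningMap_bijective_of_isAlgClosed.2 T
  have hc' : c • (LinearMap.id : V →ₗ[ℂ] V) = ∑ g, f g • ρ g⁻¹ := by
    exact congrArg (fun z : Representation.IntertwiningMap ρ ρ => z.toLinearMap) hc
  have htr : c * (Module.finrank ℂ V : ℂ) = 0 := by
    have := congrArg (LinearMap.trace ℂ V) hc'
    rw [map_smul, LinearMap.trace_id, map_sum] at this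
    simp only [map_smul, smul_eq_mul] at this
    rw [this]
    exact hsum
  have hne : Nontrivial V := by
    by_contra hV
    rw [not_nontrivial_iff_subsingleton] at hV
    have : (⊥ : Subrepresentation ρ) ≠ ⊤ := bot_ne_top
    exact this (by ext x; simp [Subsingleton.elim x 0])
  have : (Module.finrank ℂ V : ℂ) ≠ 0 := by
    exact_mod_cast Module.finrank_pos.ne'
  rw [← hc', (mul_eq_zero.1 htr).resolve_right this, zero_smul]

set_option backward.isDefEq.respectTransparency false in
/-- A class function that is orthogonal to all irreducible characters is zero. -/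
theorem eq_zero_of_coeff {f : G → ℂ} (hf : f ∈ ZA G) (h : ∀ χ ∈ Irr G, coeff f χ = 0) :
    f = 0 := by
  classical
  have := Fintype.ofFinite G
  have : Invertible (Nat.card G : ℂ) := invertibleOfNonzero card_ne
  have : NeZero (Nat.card G : ℂ) := ⟨card_ne⟩
  let t : MonoidAlgebra ℂ G := ∑ g, MonoidAlgebra.single g⁻¹ (f g)
  have key : ∀ S : Submodule (MonoidAlgebra ℂ G) (MonoidAlgebra ℂ G),
      IsSimpleModule (MonoidAlgebra ℂ G) S → ∀ s ∈ S, t * s = 0 := by
    intro S hS s hs
    let ρ := Representation.ofModule (k := ℂ) (G := G) S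
    have hirr : ρ.IsIrreducible :=
      (Representation.isSimpleModule_iff_irreducible_ofModule (k := ℂ) (G := G) S).1 hS
    have hfd : FiniteDimensional ℂ (RestrictScalars ℂ (MonoidAlgebra ℂ G) S) := by
      have hG : FiniteDimensional ℂ (MonoidAlgebra ℂ G) := inferInstance
      let j : RestrictScalars ℂ (MonoidAlgebra ℂ G) S →ₗ[ℂ] MonoidAlgebra ℂ G :=
        { toFun := fun x => (RestrictScalars.addEquiv ℂ (MonoidAlgebra ℂ G) S x : S).1
          map_add' := fun x y => by simp
          map_smul' := fun c x => by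
            rw [RestrictScalars.addEquiv_map_smul, RingHom.id_apply, Submodule.coe_smul,
              algebraMap_smul] }
      exact FiniteDimensional.of_injective j fun x y hxy => by
        exact (RestrictScalars.addEquiv ℂ (MonoidAlgebra ℂ G) S).injective (Subtype.ext hxy)
    have h1 := sum_smul_eq_zero hf ρ (h _ ⟨_, _, _, hfd, ρ, hirr, rfl⟩)
    have h2 : ρ.asAlgebraHom t = 0 := by
      simp only [t, map_sum, Representation.asAlgebraHom_single]
      exact h1
    have h3 := congrArg (fun T => T ((RestrictScalars.addEquiv ℂ (MonoidAlgebra ℂ G) S).symm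
      ⟨s, hs⟩)) h2
    simp only [ρ, Representation.ofModule_asAlgebraHom_apply_apply, AddEquiv.apply_symm_apply,
      LinearMap.zero_apply] at h3
    have h4 : t • (⟨s, hs⟩ : S) = 0 := by
      simpa using h3
    exact congrArg Subtype.val h4
  have hss : IsSemisimpleModule (MonoidAlgebra ℂ G) (MonoidAlgebra ℂ G) := inferInstance
  have htc : ∀ a : MonoidAlgebra ℂ G, t * a = a * t := by
    intro a
    induction a using MonoidAlgebra.induction_on with
    | of x =>
      simp only [t, Finset.sum_mul, Finset.mul_sum, MonoidAlgebra.of_apply,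
        MonoidAlgebra.single_mul_single, mul_one, one_mul]
      refine Fintype.sum_equiv (MulAut.conj x⁻¹).toEquiv _ _ fun g => ?_
      have h1 : f ((MulAut.conj x⁻¹).toEquiv g) = f g := hf g x⁻¹
      rw [h1]
      congr 1
      simp [mul_assoc]
    | add a b ha hb => rw [mul_add, add_mul, ha, hb]
    | smul r a ha => rw [mul_smul_comm, smul_mul_assoc, ha]
  have ht : t = 0 := by
    let K : Submodule (MonoidAlgebra ℂ G) (MonoidAlgebra ℂ G) :=
      { carrier := {x | t * x = 0}
        add_mem' := fun {x y} hx hy => by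
          rw [Set.mem_ofPred_eq] at *
          rw [mul_add, hx, hy, add_zero]
        zero_mem' := mul_zero t
        smul_mem' := fun c x hx => by
          rw [Set.mem_ofPred_eq] at *
          rw [smul_eq_mul, ← mul_assoc, htc, mul_assoc, hx, mul_zero] }
    have htop : (1 : MonoidAlgebra ℂ G) ∈ sSup { m : Submodule (MonoidAlgebra ℂ G)
        (MonoidAlgebra ℂ G) | IsSimpleModule (MonoidAlgebra ℂ G) m } := by
      rw [IsSemisimpleModule.sSup_simples_eq_top]
      trivial
    have hle : sSup { m : Submodule (MonoidAlgebra ℂ G)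
        (MonoidAlgebra ℂ G) | IsSimpleModule (MonoidAlgebra ℂ G) m } ≤ K :=
      sSup_le fun S hS s hs => key S hS s hs
    have h1 : t * 1 = 0 := hle htop
    rwa [mul_one] at h1
  funext g
  have h1 : t.coeff g⁻¹ = 0 := by rw [ht]; rfl
  have h2 : t.coeff g⁻¹ = f g := by
    simp only [t, MonoidAlgebra.coeff_sum, Finsupp.finsetSum_apply, MonoidAlgebra.coeff_single]
    rw [Finset.sum_eq_single g]
    · simp
    · intro b _ hb
      rw [Finsupp.single_eq_of_ne]
      simpa using hb.symm
    · intro h; exact absurd (Finset.mem_univ g) h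
  rw [← h2, h1]
  rfl

theorem coeff_sub (f f' χ : G → ℂ) : coeff (f - f') χ = coeff f χ - coeff f' χ := by
  have := Fintype.ofFinite G
  simp only [coeff_eq, Pi.sub_apply, sub_mul, Finset.sum_sub_distrib, mul_sub]

/-- The expansion of a class function in irreducible characters. -/
theorem eq_sum_coeff {f : G → ℂ} (hf : f ∈ ZA G) [Fintype (Irr G)] :
    f = ∑ χ : Irr G, coeff f χ.1 • χ.1 := by
  classical
  rw [← sub_eq_zero]
  refine eq_zero_of_coeff (Submodule.sub_mem _ hf (Submodule.sum_mem _ fun χ _ =>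
    Submodule.smul_mem _ _ (Irr.mem_ZA χ.2))) fun χ hχ => ?_
  rw [coeff_sub, coeff_sum, Finset.sum_eq_single ⟨χ, hχ⟩, coeff_self hχ, mul_one, sub_self]
  · intro χ' _ hne
    rw [coeff_ne χ'.2 hχ (fun h => hne (Subtype.ext h)), mul_zero]
  · intro h; exact absurd (Finset.mem_univ _) h

end completeness

section contraction

variable {G H : Type u} [Group G] [Group H] [Finite G] [Finite H]

omit [Finite G] in
theorem Irr.one_eq {χ : G → ℂ} (hχ : χ ∈ Irr G) : χ 1 = (‖χ 1‖ : ℂ) := by
  obtain ⟨V, _, _, _, ρ, -, rfl⟩ := hχ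
  rw [Representation.char_one]
  simp

omit [Finite G] in
theorem coeff_comp_nat (s : H →* G) {χ : G → ℂ} (hχ : χ ∈ Irr G) {ψ : H → ℂ} (hψ : ψ ∈ Irr H) :
    ∃ m : ℕ, coeff (χ ∘ s) ψ = m := by
  have := Fintype.ofFinite H
  have : Invertible (Nat.card H : ℂ) := invertibleOfNonzero card_ne
  obtain ⟨V, _, _, _, ρ, -, rfl⟩ := hχ
  obtain ⟨W, _, _, _, σ, -, rfl⟩ := hψ
  refine ⟨Module.finrank ℂ (Representation.IntertwiningMap σ (ρ.comp s)), ?_⟩
  rw [← Representation.card_inv_mul_sum_char_mul_char_eq_finrank, coeff_eq]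
  rfl

omit [Finite G] [Finite H] in
theorem comp_mem_ZA (s : H →* G) {f : G → ℂ} (hf : f ∈ ZA G) : f ∘ s ∈ ZA H := by
  intro g h
  simp only [Function.comp_apply, map_mul, map_inv]
  exact hf _ _

omit [Finite G] in
theorem normA_nonneg (f : G → ℂ) : 0 ≤ normA f :=
  finsum_nonneg fun _ => by positivity

/-- Composition with a homomorphism is a contraction. -/
theorem normA_comp_le (s : H →* G) {f : G → ℂ} (hf : f ∈ ZA G) : normA (f ∘ s) ≤ normA f := by
  have := Fintype.ofFinite (Irr G)
  have := Fintype.ofFinite (Irr H)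
  rw [normA, normA, finsum_eq_sum_of_fintype, finsum_eq_sum_of_fintype]
  choose m hm using fun (χ : Irr G) (ψ : Irr H) => coeff_comp_nat s χ.2 ψ.2
  have h1 : ∀ χ : Irr G, ‖χ.1 1‖ = ∑ ψ : Irr H, (m χ ψ : ℝ) * ‖ψ.1 1‖ := by
    intro χ
    have h2 := congrFun (eq_sum_coeff (comp_mem_ZA s (Irr.mem_ZA χ.2))) 1
    simp only [Function.comp_apply, map_one, Finset.sum_apply, Pi.smul_apply, smul_eq_mul, hm]
      at h2
    rw [Irr.one_eq χ.2] at h2
    have h3 : ∀ ψ : Irr H, (m χ ψ : ℂ) * ψ.1 1 = ((m χ ψ * ‖ψ.1 1‖ : ℝ) : ℂ) := by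
      intro ψ
      rw [Irr.one_eq ψ.2]
      simp
    simp only [h3] at h2
    exact_mod_cast h2
  have h4 : ∀ ψ : Irr H, coeff (f ∘ s) ψ.1 = ∑ χ : Irr G, coeff f χ.1 * m χ ψ := by
    intro ψ
    have h5 : f ∘ s = ∑ χ : Irr G, coeff f χ.1 • (χ.1 ∘ s) := by
      conv_lhs => rw [eq_sum_coeff hf]
      funext x
      simp
    rw [h5, coeff_sum]
    simp only [hm]
  calc ∑ ψ : Irr H, ‖ψ.1 1‖ * ‖coeff (f ∘ s) ψ.1‖
      ≤ ∑ ψ : Irr H, ‖ψ.1 1‖ * ∑ χ : Irr G, ‖coeff f χ.1‖ * m χ ψ := by
        refine Finset.sum_le_sum fun ψ _ => mul_le_mul_of_nonneg_left ?_ (norm_nonneg _)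
        rw [h4]
        refine (norm_sum_le _ _).trans (le_of_eq ?_)
        simp
    _ = ∑ χ : Irr G, ‖χ.1 1‖ * ‖coeff f χ.1‖ := by
        simp only [Finset.mul_sum, h1, Finset.sum_mul]
        rw [Finset.sum_comm]
        refine Finset.sum_congr rfl fun χ _ => Finset.sum_congr rfl fun ψ _ => by ring

/-- Composition with a homomorphism. -/
def pull (s : H →* G) : ZA G →ₗ[ℂ] ZA H where
  toFun f := ⟨f.1 ∘ s, comp_mem_ZA s f.2⟩
  map_add' _ _ := rfl
  map_smul' _ _ := rfl

theorem projNorm_map_le (s : H →* G) (t : ZA G ⊗[ℂ] ZA G) :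
    projNorm (TensorProduct.map (pull s) (pull s) t) ≤ projNorm t := by
  unfold projNorm
  refine le_csInf ?_ ?_
  · obtain ⟨S, hS⟩ := TensorProduct.exists_finset t
    refine ⟨_, S.card, fun i => (S.equivFin.symm i).1.1, fun i => (S.equivFin.symm i).1.2, ?_, rfl⟩
    rw [hS, ← Finset.sum_coe_sort]
    exact Fintype.sum_equiv S.equivFin _ _ fun i => by simp
  · rintro _ ⟨n, a, b, rfl, rfl⟩
    refine csInf_le_of_le ?_ ⟨n, fun i => pull s (a i), fun i => pull s (b i), ?_, rfl⟩ ?_
    · refine ⟨0, ?_⟩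
      rintro _ ⟨n, a, b, -, rfl⟩
      exact Finset.sum_nonneg fun i _ => mul_nonneg (normA_nonneg _) (normA_nonneg _)
    · rw [map_sum]
      rfl
    · exact Finset.sum_le_sum fun i _ => mul_le_mul (normA_comp_le s (a i).2)
        (normA_comp_le s (b i).2) (normA_nonneg _) (normA_nonneg _)

theorem map_diag (s : H →* G) (π : G →* H) (h : ∀ x, π (s x) = x) :
    TensorProduct.map (pull s) (pull s) (∑ᶠ C : ConjClasses G, ind C ⊗ₜ[ℂ] ind C) =
      ∑ᶠ C : ConjClasses H, ind C ⊗ₜ[ℂ] ind C := by
  classical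
  have := Fintype.ofFinite (ConjClasses G)
  have := Fintype.ofFinite (ConjClasses H)
  rw [finsum_eq_sum_of_fintype, finsum_eq_sum_of_fintype, map_sum]
  have hinj : Function.Injective (ConjClasses.map s) := by
    refine Function.LeftInverse.injective (g := ConjClasses.map π) fun C => ?_
    obtain ⟨x, rfl⟩ := ConjClasses.exists_rep C
    show ConjClasses.mk (π (s x)) = _
    rw [h]
  symm
  refine Finset.sum_of_injOn (ConjClasses.map s) hinj.injOn (fun _ _ => Finset.mem_coe.2
    (Finset.mem_univ _)) ?_ ?_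
  · intro C _ hC
    have : pull s (ind C) = 0 := by
      apply Subtype.ext
      funext x
      have : ConjClasses.mk (s x) ≠ C := by
        rintro rfl
        exact hC ⟨ConjClasses.mk x, by simp, rfl⟩
      simp [pull, ind, this]
    rw [TensorProduct.map_tmul, this, TensorProduct.zero_tmul]
  · intro C _
    have : pull s (ind (ConjClasses.map s C)) = ind C := by
      apply Subtype.ext
      funext x
      have : ConjClasses.mk (s x) = ConjClasses.map s C ↔ ConjClasses.mk x = C := by
        rw [← hinj.eq_iff]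
        rfl
      simp [pull, ind, this]
    rw [TensorProduct.map_tmul, this]

end contraction

/-- For a normal Hall subgroup `N` of the finite group `G` the amenability constant of the central
Fourier algebra of `G ⧸ N` is at most the one of `G`. -/
theorem result (G : Type u) [Group G] [Finite G] (N : Subgroup G) [N.Normal]
    (hN : (Nat.card N).Coprime N.index) : AMZA (G ⧸ N) ≤ AMZA G := by
  obtain ⟨K, hK⟩ := Subgroup.exists_left_complement'_of_coprime hN
  have hbij : Function.Bijective ((QuotientGroup.mk' N).comp K.subtype) := by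
    constructor
    · rw [injective_iff_map_eq_one]
      intro k hk
      have h1 : (k : G) ∈ N := (QuotientGroup.eq_one_iff _).1 hk
      have h2 := hK.disjoint
      rw [Subgroup.disjoint_def] at h2
      exact Subtype.ext (h2 k.2 h1)
    · intro q
      obtain ⟨g, rfl⟩ := QuotientGroup.mk'_surjective N q
      obtain ⟨⟨k, n⟩, hkn⟩ := hK.2 g
      refine ⟨k, ?_⟩
      simp only [MonoidHom.comp_apply]
      show (QuotientGroup.mk' N) (k : G) = _
      rw [← hkn, map_mul]
      have : (QuotientGroup.mk' N) (n : G) = 1 := (QuotientGroup.eq_one_iff _).2 n.2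
      rw [this, mul_one]
  let e := MulEquiv.ofBijective _ hbij
  let s : G ⧸ N →* G := K.subtype.comp e.symm.toMonoidHom
  have hs : ∀ x, QuotientGroup.mk' N (s x) = x := fun x => e.apply_symm_apply x
  unfold AMZA
  rw [← map_diag s (QuotientGroup.mk' N) hs]
  exact projNorm_map_le s _

end Pool.Agent.Results.MP_222fdd_al.HallQuotient
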